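import Pool.Agent.Lib.helper24.SubNim

set_option autoImplicit false

namespace Pool.Agent.Results.MP_bd62ae_co.Expandable

open Pool.Agent.Lib.helper24.SubNim

/-- The subtraction game `{3,11,15}` is ultimately bipartite but expandable. -/
theorem result : ∃ S : Finset ℕ, S.Nonempty ∧ (∀ s ∈ S, 0 < s) ∧ ∃ G : ℕ → ℕ,
    (∀ n : ℕ, IsLeast {k : ℕ | ∀ s ∈ S, s ≤ n → G (n - s) ≠ k} (G n)) ∧
    (∃ n₀ : ℕ, ∀ j : ℕ, G (n₀ + 2 * j) = 0 ∧ G (n₀ + 2 * j + 1) = 1) ∧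
    {t : ℕ | 0 < t ∧ ∀ n : ℕ, G (n + t) ≠ G n} ≠ (S : Set ℕ) ∧
    {t : ℕ | 0 < t ∧ ∀ n : ℕ, G (n + t) ≠ G n} ≠ {t : ℕ | ∃ s ∈ S, ∃ m : ℕ, t = s + 2 * m} := by
  let L : List ℕ := [0, 0, 0, 1, 1, 1, 0, 0, 0, 1, 1, 1, 2, 2, 0, 3, 3, 1, 2, 2, 0, 3, 3, 1, 0, 2,
    0, 1]
  have hsh : ∀ r p k, 26 ≤ r → tab L 26 2 (r + 2 * k + p) = tab L 26 2 (r + p) := by
    intro r p k hr
    rw [add_right_comm, tab_per_mul L 26 2 _ k (by omega)]
  refine ⟨{3, 11, 15}, by decide, by decide, tab L 26 2, mex_all _ _ 26 2 15 (by norm_num)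
    (by decide) (fun n hn => tab_per L 26 2 n hn) (by decide +kernel), ⟨26, fun j => ?_⟩, ?_, ?_⟩
  · rw [hsh 26 1 j le_rfl, tab_per_mul L 26 2 26 j le_rfl]
    decide +kernel
  · intro h
    have h9 : 9 ∈ {t : ℕ | 0 < t ∧ ∀ n : ℕ, tab L 26 2 (n + t) ≠ tab L 26 2 n} := by
      refine ⟨by norm_num, fun n => ?_⟩
      have key : ∀ r < 28, tab L 26 2 (r + 9) ≠ tab L 26 2 r := by decide +kernel
      by_cases hn : n < 28
      · exact key n hn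
      · have e : n = (26 + n % 2) + 2 * ((n - 26) / 2) := by omega
        rw [e, hsh _ _ _ (by omega), tab_per_mul L 26 2 _ _ (by omega)]
        exact key _ (by omega)
    rw [h] at h9
    revert h9
    simp
  · intro h
    have h5 : 5 ∈ {t : ℕ | ∃ s ∈ ({3, 11, 15} : Finset ℕ), ∃ m : ℕ, t = s + 2 * m} :=
      ⟨3, by decide, 1, rfl⟩
    rw [← h] at h5
    exact h5.2 1 (by decide +kernel)

end Pool.Agent.Results.MP_bd62ae_co.Expandable
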